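import Pool.Agent.H67.AG.T6
import Pool.Agent.H55.AG.A0

/-!
Row S1 of the board gap_modules (`MP_c59857_nt`): the products are asymptotically invariant in
mean square.
-/

set_option autoImplicit false

open MeasureTheory ProbabilityTheory Filter Topology Finset

namespace Pool.Agent.H55.AG.S1

open Pool.Agent.H67.AG
open Pool.Agent.H24.T2 (Pset)

section single

variable {Ω : Type} [MeasurableSpace Ω] {P : Measure Ω} [IsProbabilityMeasure P] {T : Ω ≃ᵐ Ω}

theorem Av_meas (W n : ℕ) {f : Ω → ℝ} (hf : Measurable f) : Measurable (Av T W n f) := by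
  unfold Av
  exact (Finset.measurable_sum _ fun l _ => hf.comp (T.measurable.iterate _)).div_const _

theorem Av_abs (W n : ℕ) {f : Ω → ℝ} (hb : ∀ ω, |f ω| ≤ 1) (ω : Ω) : |Av T W n f ω| ≤ 1 := by
  unfold Av
  rw [abs_div, Nat.abs_cast]
  refine div_le_one_of_le₀ ?_ (Nat.cast_nonneg n)
  calc |∑ l ∈ range n, f (T^[W * l] ω)| ≤ ∑ l ∈ range n, |f (T^[W * l] ω)| :=
        Finset.abs_sum_le_sum_abs _ _
    _ ≤ ∑ _l ∈ range n, (1 : ℝ) := Finset.sum_le_sum fun l _ => hb _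
    _ = n := by simp

theorem int_bdd {f : Ω → ℝ} (hf : Measurable f) {C : ℝ} (h : ∀ x, |f x| ≤ C) : Integrable f P :=
  Integrable.of_bound hf.aestronglyMeasurable C (Filter.Eventually.of_forall fun x => by
    rw [Real.norm_eq_abs]; exact h x)

theorem int_sq {f : Ω → ℝ} (hf : Measurable f) (h : ∀ x, |f x| ≤ 1) :
    Integrable (fun ω => f ω ^ 2) P :=
  int_bdd (C := 1) (hf.pow_const 2) fun x => by
    rw [abs_pow]; exact pow_le_one₀ (abs_nonneg _) (h x)

omit [IsProbabilityMeasure P] in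
theorem int_iter (hT : MeasurePreserving T P P) (n : ℕ) {f : Ω → ℝ} (hf : Measurable f) :
    ∫ ω, f (T^[n] ω) ∂P = ∫ ω, f ω ∂P := by
  have h := hT.iterate n
  have h1 := integral_map (μ := P) h.measurable.aemeasurable (f := f) (hf.aestronglyMeasurable)
  rw [h.map_eq] at h1
  exact h1.symm

theorem conv_sq (hT : MeasurePreserving T P P) (W n : ℕ) {f : Ω → ℝ} (hf : Measurable f)
    (hb : ∀ ω, |f ω| ≤ 1) : ∫ ω, Av T W n f ω ^ 2 ∂P ≤ ∫ ω, f ω ^ 2 ∂P := by
  rcases Nat.eq_zero_or_pos n with hn | hn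
  · subst hn
    have e : ∀ ω, Av T W 0 f ω ^ 2 = 0 := fun ω => by simp [Av]
    simp_rw [e]
    rw [integral_zero]
    exact integral_nonneg fun ω => sq_nonneg _
  · have hn' : (0 : ℝ) < n := by exact_mod_cast hn
    have h1 : ∀ ω, Av T W n f ω ^ 2 ≤ (∑ l ∈ range n, f (T^[W * l] ω) ^ 2) / n := by
      intro ω
      unfold Av
      rw [div_pow, div_le_div_iff₀ (by positivity) hn']
      have h2 := sq_sum_le_card_mul_sum_sq (s := range n) (f := fun l => f (T^[W * l] ω))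
      rw [Finset.card_range] at h2
      nlinarith [h2]
    have hi : ∀ l, Integrable (fun ω => f (T^[W * l] ω) ^ 2) P := fun l =>
      int_sq (hf.comp (T.measurable.iterate _)) fun ω => hb _
    calc ∫ ω, Av T W n f ω ^ 2 ∂P ≤ ∫ ω, (∑ l ∈ range n, f (T^[W * l] ω) ^ 2) / n ∂P :=
          integral_mono (int_sq (Av_meas W n hf) (Av_abs W n hb))
            ((integrable_finsetSum _ fun l _ => hi l).div_const _) h1
      _ = ∫ ω, f ω ^ 2 ∂P := by
          rw [integral_div, integral_finsetSum _ fun l _ => hi l]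
          have e : ∀ l ∈ range n, ∫ ω, f (T^[W * l] ω) ^ 2 ∂P = ∫ ω, f ω ^ 2 ∂P := fun l _ =>
            int_iter hT (W * l) (f := fun ω => f ω ^ 2) (hf.pow_const 2)
          rw [Finset.sum_congr rfl e, Finset.sum_const, Finset.card_range, nsmul_eq_mul,
            mul_div_cancel_left₀ _ hn'.ne']

theorem sum_mul (f : ℕ → ℝ) (K L : ℕ) :
    ∑ t ∈ range (K * L), f t = ∑ l ∈ range K, ∑ s ∈ range L, f (L * l + s) := by
  induction K with
  | zero => simp
  | succ K ih =>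
    rw [Nat.succ_mul, Finset.sum_range_add, ih, Finset.sum_range_succ]
    congr 1
    refine Finset.sum_congr rfl fun s _ => ?_
    rw [Nat.mul_comm]

theorem Av_mul (W K L : ℕ) (f : Ω → ℝ) (ω : Ω) :
    Av T W (K * L) f ω = Av T (W * L) K (Av T W L f) ω := by
  unfold Av
  rw [sum_mul, Nat.cast_mul, mul_comm (K : ℝ), ← div_div, Finset.sum_div]
  congr 1
  refine Finset.sum_congr rfl fun l _ => ?_
  congr 1
  refine Finset.sum_congr rfl fun s _ => ?_
  rw [← Function.iterate_add_apply]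
  congr 2
  ring

theorem Av_rest (W L M : ℕ) (hL : 0 < L) (hM : L ≤ M) {f : Ω → ℝ} (hb : ∀ ω, |f ω| ≤ 1)
    (ω : Ω) : Av T W M f ω ^ 2 ≤ Av T W (M / L * L) f ω ^ 2 + 3 * L / M := by
  have hM' : (0 : ℝ) < M := by exact_mod_cast lt_of_lt_of_le hL hM
  have hdm : M / L * L + M % L = M := Nat.div_add_mod' M L
  have hr : M % L < L := Nat.mod_lt _ hL
  set a := M / L * L with ha
  set r := M % L with hrr
  have ha0 : 0 < a := Nat.mul_pos (Nat.div_pos hM hL) hL
  have ha' : (0 : ℝ) < a := by exact_mod_cast ha0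
  have e1 : Av T W M f ω = (a : ℝ) / M * Av T W a f ω +
      (∑ x ∈ range r, f (T^[W * (a + x)] ω)) / M := by
    unfold Av
    rw [← hdm, Finset.sum_range_add]
    rw [hdm, add_div]
    congr 1
    field_simp
  have hb1 : |(∑ x ∈ range r, f (T^[W * (a + x)] ω)) / M| ≤ (L : ℝ) / M := by
    rw [abs_div, abs_of_pos hM']
    refine div_le_div_of_nonneg_right ?_ hM'.le
    calc |∑ x ∈ range r, f (T^[W * (a + x)] ω)| ≤ ∑ x ∈ range r, |f (T^[W * (a + x)] ω)| :=
          Finset.abs_sum_le_sum_abs _ _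
      _ ≤ ∑ _x ∈ range r, (1 : ℝ) := Finset.sum_le_sum fun l _ => hb _
      _ = r := by simp
      _ ≤ L := by exact_mod_cast hr.le
  have hc1 : (a : ℝ) / M ≤ 1 := by
    rw [div_le_one hM']
    exact_mod_cast (by omega : a ≤ M)
  have hc0 : 0 ≤ (a : ℝ) / M := by positivity
  have hA := Av_abs (T := T) W a hb ω
  have hLM : (L : ℝ) / M ≤ 1 := by
    rw [div_le_one hM']
    exact_mod_cast hM
  rw [e1, mul_div_assoc]
  set A := Av T W a f ω
  set B := (∑ x ∈ range r, f (T^[W * (a + x)] ω)) / M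
  set c := (a : ℝ) / M
  set q := (L : ℝ) / M
  have h1 : (c * A) ^ 2 ≤ A ^ 2 := by
    rw [mul_pow]
    have : c ^ 2 ≤ 1 := pow_le_one₀ hc0 hc1
    nlinarith [sq_nonneg A]
  have h2 : |c * A| ≤ 1 := by
    rw [abs_mul, abs_of_nonneg hc0]
    exact mul_le_one₀ hc1 (abs_nonneg _) hA
  have h3 : c * A * B ≤ q := by
    calc c * A * B ≤ |c * A * B| := le_abs_self _
      _ = |c * A| * |B| := abs_mul _ _
      _ ≤ 1 * q := mul_le_mul h2 hb1 (abs_nonneg _) zero_le_one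
      _ = q := one_mul _
  have h4 : B ^ 2 ≤ q := by
    rw [← sq_abs]
    have hq : |B| ≤ 1 := hb1.trans hLM
    nlinarith [abs_nonneg B]
  nlinarith

theorem norm_step (hT : MeasurePreserving T P P) (W L M : ℕ) (hL : 0 < L) (hM : L ≤ M)
    {f : Ω → ℝ} (hf : Measurable f) (hb : ∀ ω, |f ω| ≤ 1) :
    ∫ ω, Av T W M f ω ^ 2 ∂P ≤ ∫ ω, Av T W L f ω ^ 2 ∂P + 3 * L / M := by
  have h1 : ∫ ω, Av T W M f ω ^ 2 ∂P ≤ ∫ ω, (Av T W (M / L * L) f ω ^ 2 + 3 * L / M) ∂P :=
    integral_mono (int_sq (Av_meas W M hf) (Av_abs W M hb))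
      ((int_sq (Av_meas W _ hf) (Av_abs W _ hb)).add (integrable_const _))
      fun ω => Av_rest W L M hL hM hb ω
  have h2 : ∫ ω, (Av T W (M / L * L) f ω ^ 2 + 3 * L / M) ∂P =
      ∫ ω, Av T W (M / L * L) f ω ^ 2 ∂P + 3 * L / M := by
    rw [integral_add (int_sq (Av_meas W _ hf) (Av_abs W _ hb)) (integrable_const _)]
    simp
  have h3 : ∫ ω, Av T W (M / L * L) f ω ^ 2 ∂P ≤ ∫ ω, Av T W L f ω ^ 2 ∂P := by
    have e : ∀ ω, Av T W (M / L * L) f ω = Av T (W * L) (M / L) (Av T W L f) ω :=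
      fun ω => Av_mul W (M / L) L f ω
    simp_rw [e]
    exact conv_sq hT (W * L) (M / L) (Av_meas W L hf) (Av_abs W L hb)
  linarith

theorem sum_shift (f : ℕ → ℝ) (hb : ∀ n, |f n| ≤ 1) (M s : ℕ) :
    |∑ l ∈ range M, f (l + s) - ∑ l ∈ range M, f l| ≤ 2 * s := by
  have e1 : ∑ l ∈ range (s + M), f l = ∑ l ∈ range s, f l + ∑ l ∈ range M, f (s + l) :=
    Finset.sum_range_add _ _ _
  have e2 : ∑ l ∈ range (M + s), f l = ∑ l ∈ range M, f l + ∑ l ∈ range s, f (M + l) :=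
    Finset.sum_range_add _ _ _
  have e3 : ∑ l ∈ range M, f (l + s) = ∑ l ∈ range M, f (s + l) :=
    Finset.sum_congr rfl fun l _ => by rw [add_comm]
  rw [add_comm M s, e1] at e2
  have h1 : |∑ l ∈ range s, f l| ≤ s := by
    calc |∑ l ∈ range s, f l| ≤ ∑ l ∈ range s, |f l| := Finset.abs_sum_le_sum_abs _ _
      _ ≤ ∑ _l ∈ range s, (1 : ℝ) := Finset.sum_le_sum fun l _ => hb _
      _ = s := by simp
  have h2 : |∑ l ∈ range s, f (M + l)| ≤ s := by
    calc |∑ l ∈ range s, f (M + l)| ≤ ∑ l ∈ range s, |f (M + l)| :=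
          Finset.abs_sum_le_sum_abs _ _
      _ ≤ ∑ _l ∈ range s, (1 : ℝ) := Finset.sum_le_sum fun l _ => hb _
      _ = s := by simp
  rw [abs_le] at h1 h2 ⊢
  rw [e3]
  constructor <;> linarith [h1.1, h1.2, h2.1, h2.2]

theorem Av_Av (W L M : ℕ) (hL : 0 < L) (hM : 0 < M) {f : Ω → ℝ} (hb : ∀ ω, |f ω| ≤ 1) (ω : Ω) :
    |Av T W M (Av T W L f) ω - Av T W M f ω| ≤ 2 * L / M := by
  have hL' : (0 : ℝ) < L := by exact_mod_cast hL
  have hM' : (0 : ℝ) < M := by exact_mod_cast hM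
  have e : Av T W M (Av T W L f) ω - Av T W M f ω =
      (∑ s ∈ range L, (∑ l ∈ range M, f (T^[W * (l + s)] ω) -
        ∑ l ∈ range M, f (T^[W * l] ω))) / (L * M) := by
    unfold Av
    rw [Finset.sum_sub_distrib, Finset.sum_const, Finset.card_range, nsmul_eq_mul,
      ← Finset.sum_div, Finset.sum_comm]
    have e2 : ∑ s ∈ range L, ∑ l ∈ range M, f (T^[W * s] (T^[W * l] ω)) =
        ∑ s ∈ range L, ∑ l ∈ range M, f (T^[W * (l + s)] ω) := by
      refine Finset.sum_congr rfl fun s _ => Finset.sum_congr rfl fun l _ => ?_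
      rw [← Function.iterate_add_apply]
      congr 2
      ring
    rw [e2]
    field_simp
  rw [e, abs_div, abs_of_pos (mul_pos hL' hM'), div_le_div_iff₀ (mul_pos hL' hM') hM']
  have h1 : |∑ s ∈ range L, (∑ l ∈ range M, f (T^[W * (l + s)] ω) -
      ∑ l ∈ range M, f (T^[W * l] ω))| ≤ L * (2 * L) := by
    calc _ ≤ ∑ s ∈ range L, |∑ l ∈ range M, f (T^[W * (l + s)] ω) -
            ∑ l ∈ range M, f (T^[W * l] ω)| := Finset.abs_sum_le_sum_abs _ _
      _ ≤ ∑ _s ∈ range L, (2 * L : ℝ) := by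
          refine Finset.sum_le_sum fun s hs => ?_
          refine (sum_shift (fun l => f (T^[W * l] ω)) (fun n => hb _) M s).trans ?_
          have : (s : ℝ) ≤ L := by exact_mod_cast (Finset.mem_range.mp hs).le
          linarith
      _ = L * (2 * L) := by simp
  nlinarith [h1]

theorem Av_half (W M : ℕ) (x y : Ω → ℝ) (ω : Ω) :
    Av T W M (fun ω => (x ω + y ω) / 2) ω = (Av T W M x ω + Av T W M y ω) / 2 := by
  unfold Av
  rw [← Finset.sum_div, Finset.sum_add_distrib]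
  ring

theorem key (hT : MeasurePreserving T P P) (W L L' M : ℕ) (hL : 0 < L) (hL' : 0 < L')
    (hM : 0 < M) {f : Ω → ℝ} (hf : Measurable f) (hb : ∀ ω, |f ω| ≤ 1) :
    ∫ ω, (Av T W L f ω - Av T W L' f ω) ^ 2 ∂P ≤ 2 * ∫ ω, Av T W L f ω ^ 2 ∂P +
      2 * ∫ ω, Av T W L' f ω ^ 2 ∂P - 4 * ∫ ω, Av T W M f ω ^ 2 ∂P + 8 * (L + L') / M := by
  have hM' : (0 : ℝ) < M := by exact_mod_cast hM
  set x := Av T W L f with hx
  set y := Av T W L' f with hy
  set v : Ω → ℝ := fun ω => (x ω + y ω) / 2 with hv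
  have hxm : Measurable x := Av_meas W L hf
  have hym : Measurable y := Av_meas W L' hf
  have hxb : ∀ ω, |x ω| ≤ 1 := Av_abs W L hb
  have hyb : ∀ ω, |y ω| ≤ 1 := Av_abs W L' hb
  have hvm : Measurable v := (hxm.add hym).div_const _
  have hvb : ∀ ω, |v ω| ≤ 1 := by
    intro ω
    have h1 := abs_le.mp (hxb ω)
    have h2 := abs_le.mp (hyb ω)
    rw [abs_le]
    simp only [hv]
    constructor <;> linarith [h1.1, h1.2, h2.1, h2.2]
  have e1 : ∫ ω, (x ω - y ω) ^ 2 ∂P =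
      2 * ∫ ω, x ω ^ 2 ∂P + 2 * ∫ ω, y ω ^ 2 ∂P - 4 * ∫ ω, v ω ^ 2 ∂P := by
    have i1 : Integrable (fun ω => 2 * x ω ^ 2 + 2 * y ω ^ 2) P :=
      ((int_sq hxm hxb).const_mul 2).add ((int_sq hym hyb).const_mul 2)
    have i2 : Integrable (fun ω => 4 * v ω ^ 2) P := (int_sq hvm hvb).const_mul 4
    have j1 : ∫ ω, (2 * x ω ^ 2 + 2 * y ω ^ 2) ∂P =
        ∫ ω, 2 * x ω ^ 2 ∂P + ∫ ω, 2 * y ω ^ 2 ∂P :=
      integral_add ((int_sq hxm hxb).const_mul 2) ((int_sq hym hyb).const_mul 2)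
    have j2 : ∫ ω, ((2 * x ω ^ 2 + 2 * y ω ^ 2) - 4 * v ω ^ 2) ∂P =
        ∫ ω, (2 * x ω ^ 2 + 2 * y ω ^ 2) ∂P - ∫ ω, 4 * v ω ^ 2 ∂P := integral_sub i1 i2
    rw [← integral_const_mul, ← integral_const_mul, ← integral_const_mul, ← j1, ← j2]
    refine integral_congr_ae (Filter.Eventually.of_forall fun ω => ?_)
    simp only [hv]
    ring
  have h2 : ∫ ω, Av T W M v ω ^ 2 ∂P ≤ ∫ ω, v ω ^ 2 ∂P := conv_sq hT W M hvm hvb
  have h3 : ∀ ω, Av T W M f ω ^ 2 ≤ Av T W M v ω ^ 2 + 2 * (L + L') / M := by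
    intro ω
    have a1 := Av_Av (T := T) W L M hL hM hb ω
    have a2 := Av_Av (T := T) W L' M hL' hM hb ω
    have a3 : Av T W M v ω = (Av T W M x ω + Av T W M y ω) / 2 := Av_half W M x y ω
    have a4 : |Av T W M v ω - Av T W M f ω| ≤ (L + L') / M := by
      rw [a3]
      rw [abs_le] at a1 a2 ⊢
      have e3 : 2 * (L : ℝ) / M = 2 * ((L : ℝ) / M) := by ring
      have e4 : 2 * (L' : ℝ) / M = 2 * ((L' : ℝ) / M) := by ring
      rw [e3] at a1
      rw [e4] at a2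
      rw [add_div (L : ℝ)]
      constructor <;> linarith [a1.1, a1.2, a2.1, a2.2]
    have a5 := Av_abs (T := T) W M hvb ω
    have a6 := Av_abs (T := T) W M hb ω
    have a7 : Av T W M f ω ^ 2 - Av T W M v ω ^ 2 ≤ 2 * ((L + L') / M) := by
      calc Av T W M f ω ^ 2 - Av T W M v ω ^ 2
          ≤ |Av T W M f ω ^ 2 - Av T W M v ω ^ 2| := le_abs_self _
        _ = |Av T W M f ω + Av T W M v ω| * |Av T W M v ω - Av T W M f ω| := by
            rw [abs_sub_comm (Av T W M v ω), ← abs_mul]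
            congr 1
            ring
        _ ≤ 2 * ((L + L') / M) := by
            refine mul_le_mul ?_ a4 (abs_nonneg _) zero_le_two
            exact (abs_add_le _ _).trans (by linarith)
    rw [mul_div_assoc]
    linarith
  have h4 : ∫ ω, Av T W M f ω ^ 2 ∂P ≤ ∫ ω, Av T W M v ω ^ 2 ∂P + 2 * (L + L') / M := by
    have h5 : ∫ ω, Av T W M f ω ^ 2 ∂P ≤ ∫ ω, (Av T W M v ω ^ 2 + 2 * (L + L') / M) ∂P :=
      integral_mono (int_sq (Av_meas W M hf) (Av_abs W M hb))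
        ((int_sq (Av_meas W M hvm) (Av_abs W M hvb)).add (integrable_const _)) h3
    rw [integral_add (int_sq (Av_meas W M hvm) (Av_abs W M hvb)) (integrable_const _)] at h5
    simpa using h5
  rw [e1]
  have e5 : 8 * ((L : ℝ) + L') / M = 4 * (2 * (L + L') / M) := by ring
  rw [e5]
  linarith

end single

/-! ### averages over primes -/

theorem avgP_lin {W m : ℕ} {D A B C : ℕ → ℝ} {c : ℝ} (hc : 0 ≤ c)
    (h : ∀ p, D p ≤ 2 * A p + 2 * B p - 4 * C p + c) :
    avgP W m D ≤ 2 * avgP W m A + 2 * avgP W m B - 4 * avgP W m C + c := by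
  unfold avgP
  rcases Nat.eq_zero_or_pos (Pset W m).card with h0 | h0
  · rw [h0]
    simpa using hc
  · have h' : (0 : ℝ) < (Pset W m).card := by exact_mod_cast h0
    rw [div_le_iff₀ h']
    have e : (2 * ((∑ p ∈ Pset W m, A p) / ((Pset W m).card : ℝ)) +
        2 * ((∑ p ∈ Pset W m, B p) / ((Pset W m).card : ℝ)) -
        4 * ((∑ p ∈ Pset W m, C p) / ((Pset W m).card : ℝ)) + c) * (Pset W m).card =
        ∑ p ∈ Pset W m, (2 * A p + 2 * B p - 4 * C p + c) := by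
      rw [Finset.sum_add_distrib, Finset.sum_sub_distrib, Finset.sum_add_distrib,
        ← Finset.mul_sum, ← Finset.mul_sum, ← Finset.mul_sum, Finset.sum_const, nsmul_eq_mul]
      field_simp
    rw [e]
    exact Finset.sum_le_sum fun p _ => h p

theorem avgP_le_add {W m : ℕ} {A B : ℕ → ℝ} {c : ℝ} (hc : 0 ≤ c)
    (h : ∀ p, A p ≤ B p + c) : avgP W m A ≤ avgP W m B + c := by
  unfold avgP
  rcases Nat.eq_zero_or_pos (Pset W m).card with h0 | h0
  · rw [h0]
    simpa using hc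
  · have h' : (0 : ℝ) < (Pset W m).card := by exact_mod_cast h0
    rw [div_le_iff₀ h']
    have e : ((∑ p ∈ Pset W m, B p) / ((Pset W m).card : ℝ) + c) * (Pset W m).card =
        ∑ p ∈ Pset W m, (B p + c) := by
      rw [Finset.sum_add_distrib, Finset.sum_const, nsmul_eq_mul]
      field_simp
    rw [e]
    exact Finset.sum_le_sum fun p _ => h p

theorem FF_meas (d : Sw) (p : ℕ) (j : Fin d.k → Fin d.n) : Measurable (d.FF p j) :=
  Finset.measurable_prod _ fun i _ => ((d.hy (j i)).1 i).comp (d.T'.measurable.iterate _)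

theorem FF_abs (d : Sw) (p : ℕ) (j : Fin d.k → Fin d.n) (ω : d.Ω') : |d.FF p j ω| ≤ 1 := by
  unfold Sw.FF
  rw [Finset.abs_prod]
  refine Finset.prod_le_one (fun i _ => abs_nonneg _) fun i _ => ?_
  rcases (d.hy (j i)).2 i (d.T'^[(p - 1) * d.β i] ω) with h | h <;> rw [h] <;> simp

/-- the square norm of the average of length `L` -/
noncomputable def NN (d : Sw) (j : Fin d.k → Fin d.n) (L p : ℕ) : ℝ :=
  ∫ ω, Av d.T' d.W L (d.FF p j) ω ^ 2 ∂d.P'

theorem NN_abs (d : Sw) (j : Fin d.k → Fin d.n) (L p : ℕ) : |NN d j L p| ≤ 1 := by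
  unfold NN
  have h := norm_integral_le_of_norm_le_const (μ := d.P') (C := 1)
    (f := fun ω => Av d.T' d.W L (d.FF p j) ω ^ 2)
    (Filter.Eventually.of_forall fun x => by
      rw [Real.norm_eq_abs, abs_pow]
      exact pow_le_one₀ (abs_nonneg _) (Av_abs _ _ (FF_abs d p j) x))
  rw [Real.norm_eq_abs, one_mul, probReal_univ] at h
  exact h

/-- the limit of the averages of the square norms -/
noncomputable def al (d : Sw) (j : Fin d.k → Fin d.n) (L : ℕ) : ℝ :=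
  ul d.U fun m => avgP d.W m (NN d j L)

theorem al_tendsto (hul : T_UL) (d : Sw) (j : Fin d.k → Fin d.n) (L : ℕ) :
    Tendsto (fun m => avgP d.W m (NN d j L)) (d.U : Filter ℕ) (𝓝 (al d j L)) :=
  (hul d.U).1 _ ⟨1, fun _ => abs_avgP_le zero_le_one fun p => NN_abs d j L p⟩

theorem al_step (hul : T_UL) (d : Sw) (j : Fin d.k → Fin d.n) (L M : ℕ) (hL : 0 < L)
    (hM : L ≤ M) : al d j M ≤ al d j L + 3 * L / M := by
  refine le_of_tendsto_of_tendsto' (al_tendsto hul d j M)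
    ((al_tendsto hul d j L).add_const (3 * L / M : ℝ)) fun m => ?_
  exact avgP_le_add (by positivity) fun p =>
    norm_step d.mp' d.W L M hL hM (FF_meas d p j) (FF_abs d p j)

theorem al_nonneg (hul : T_UL) (d : Sw) (j : Fin d.k → Fin d.n) (L : ℕ) : 0 ≤ al d j L := by
  refine ge_of_tendsto' (al_tendsto hul d j L) fun m => ?_
  unfold avgP
  exact div_nonneg (Finset.sum_nonneg fun p _ => integral_nonneg fun ω => sq_nonneg _)
    (Nat.cast_nonneg _)

theorem main_ineq (hul : T_UL) (d : Sw) (j : Fin d.k → Fin d.n) (L L' M : ℕ) (hL : 0 < L)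
    (hL' : 0 < L') (hM : 0 < M) :
    ul d.U (fun m => avgP d.W m fun p =>
      ∫ ω, (Av d.T' d.W L (d.FF p j) ω - Av d.T' d.W L' (d.FF p j) ω) ^ 2 ∂d.P') ≤
    2 * al d j L + 2 * al d j L' - 4 * al d j M + 8 * (L + L') / M := by
  have hb : ∀ p, |∫ ω, (Av d.T' d.W L (d.FF p j) ω - Av d.T' d.W L' (d.FF p j) ω) ^ 2 ∂d.P'| ≤
      4 := by
    intro p
    have h := norm_integral_le_of_norm_le_const (μ := d.P') (C := 4)
      (f := fun ω => (Av d.T' d.W L (d.FF p j) ω - Av d.T' d.W L' (d.FF p j) ω) ^ 2)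
      (Filter.Eventually.of_forall fun x => by
        have h1 := abs_le.mp (Av_abs (T := d.T') d.W L (FF_abs d p j) x)
        have h2 := abs_le.mp (Av_abs (T := d.T') d.W L' (FF_abs d p j) x)
        rw [Real.norm_eq_abs, abs_pow, ← sq_abs, abs_abs, sq_abs]
        nlinarith [h1.1, h1.2, h2.1, h2.2])
    rw [Real.norm_eq_abs, probReal_univ, mul_one] at h
    exact h
  have h1 := (hul d.U).1 (fun m => avgP d.W m fun p =>
      ∫ ω, (Av d.T' d.W L (d.FF p j) ω - Av d.T' d.W L' (d.FF p j) ω) ^ 2 ∂d.P')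
    ⟨4, fun _ => abs_avgP_le (by norm_num) hb⟩
  have h2 : Tendsto (fun m => 2 * avgP d.W m (NN d j L) + 2 * avgP d.W m (NN d j L') -
      4 * avgP d.W m (NN d j M) + (8 * (L + L') / M : ℝ)) (d.U : Filter ℕ)
      (𝓝 (2 * al d j L + 2 * al d j L' - 4 * al d j M + 8 * (L + L') / M)) :=
    ((((al_tendsto hul d j L).const_mul 2).add ((al_tendsto hul d j L').const_mul 2)).sub
      ((al_tendsto hul d j M).const_mul 4)).add_const _
  refine le_of_tendsto_of_tendsto' h1 h2 fun m => ?_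
  exact avgP_lin (by positivity) fun p =>
    key d.mp' d.W L L' M hL hL' hM (FF_meas d p j) (FF_abs d p j)

/-- S1 -/
theorem pf_S1 (hul : T_UL) : T_S1 := by
  intro d ε hε
  have hone : ∀ j : Fin d.k → Fin d.n, ∃ L₀ : ℕ, 0 < L₀ ∧ ∀ L M : ℕ, L₀ ≤ L → 0 < M →
      al d j L ≤ al d j M + ε / 8 := by
    intro j
    -- near the infimum
    set S : Set ℝ := {a | ∃ L : ℕ, 0 < L ∧ a = al d j L} with hS
    have hne : S.Nonempty := ⟨_, 1, one_pos, rfl⟩
    have hbd : BddBelow S := ⟨0, by rintro a ⟨L, _, rfl⟩; exact al_nonneg hul d j L⟩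
    obtain ⟨a, ⟨L₁, hL₁, rfl⟩, ha⟩ := Real.lt_sInf_add_pos hne (show (0 : ℝ) < ε / 16 by linarith)
    obtain ⟨K, hK⟩ := exists_nat_gt (3 * L₁ / (ε / 16) : ℝ)
    refine ⟨K + L₁, by omega, fun L M hL hM => ?_⟩
    have hLpos : (0 : ℝ) < L := by
      have : 0 < L := by omega
      exact_mod_cast this
    have h1 := al_step hul d j L₁ L hL₁ (by omega)
    have h2 : 3 * (L₁ : ℝ) / L ≤ ε / 16 := by
      rw [div_le_iff₀ hLpos]
      rw [div_lt_iff₀ (by linarith)] at hK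
      have : (K : ℝ) ≤ L := by exact_mod_cast (by omega : K ≤ L)
      nlinarith
    have h3 : sInf S ≤ al d j M := csInf_le hbd ⟨M, hM, rfl⟩
    linarith
  choose L₀ hL₀ using hone
  refine ⟨∑ j, L₀ j + 1, Nat.succ_pos _, fun L'' hL'' j => ?_⟩
  set L := ∑ j, L₀ j + 1 with hL
  have hjL : L₀ j ≤ L := by
    have := Finset.single_le_sum (f := L₀) (fun i _ => Nat.zero_le _) (Finset.mem_univ j)
    omega
  obtain ⟨M, hM⟩ := exists_nat_gt (8 * (L + L'') / (ε / 2) : ℝ)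
  have hM1 : (0 : ℝ) < M := lt_of_le_of_lt (by positivity) hM
  have hMp : 0 < M := by exact_mod_cast hM1
  have h1 := main_ineq hul d j L L'' M (Nat.succ_pos _) (by omega) hMp
  have h2 := (hL₀ j).2 L M hjL hMp
  have h3 := (hL₀ j).2 L'' M (by omega) hMp
  have h4 : 8 * ((L : ℝ) + L'') / M ≤ ε / 2 := by
    rw [div_le_iff₀ hM1]
    rw [div_lt_iff₀ (by linarith)] at hM
    linarith
  linarith

end Pool.Agent.H55.AG.S1
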