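import Pool.Agent.H24.AG.Targets

/-!
Row VHG of the board gap_modules (`MP_c59857_nt`): the theorem of Herglotz.
-/

set_option autoImplicit false

open MeasureTheory Filter Topology Finset AddCircle
open scoped ComplexConjugate

namespace Pool.Agent.H55.AG.HG

open Pool.Agent.H24.AG

/-- the kernel -/
noncomputable def Gk (r : ℤ → ℝ) (N : ℕ) (x : AddCircle (1 : ℝ)) : ℂ :=
  ∑ i ∈ Finset.Ico (0 : ℤ) N, ∑ j ∈ Finset.Ico (0 : ℤ) N, (r (i - j) : ℂ) * fourier (i - j) x

theorem fourier_sub' (i j : ℤ) (x : AddCircle (1 : ℝ)) :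
    (fourier (i - j) x : ℂ) = fourier i x * conj (fourier j x : ℂ) := by
  rw [sub_eq_add_neg, fourier_add, fourier_neg]

theorem Gk_re (r : ℤ → ℝ) (N : ℕ) (x : AddCircle (1 : ℝ)) : (Gk r N x).re =
    ∑ i ∈ Finset.Ico (0 : ℤ) N, ∑ j ∈ Finset.Ico (0 : ℤ) N,
      (fourier i x : ℂ).re * (fourier j x : ℂ).re * r (i - j) +
    ∑ i ∈ Finset.Ico (0 : ℤ) N, ∑ j ∈ Finset.Ico (0 : ℤ) N,
      (fourier i x : ℂ).im * (fourier j x : ℂ).im * r (i - j) := by
  unfold Gk
  rw [Complex.re_sum, ← Finset.sum_add_distrib]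
  refine Finset.sum_congr rfl fun i _ => ?_
  rw [Complex.re_sum, ← Finset.sum_add_distrib]
  refine Finset.sum_congr rfl fun j _ => ?_
  rw [fourier_sub', Complex.re_ofReal_mul, Complex.mul_re, Complex.conj_re, Complex.conj_im]
  ring

theorem Gk_re_nonneg {r : ℤ → ℝ} (hr : PDf r) (N : ℕ) (x : AddCircle (1 : ℝ)) :
    0 ≤ (Gk r N x).re := by
  rw [Gk_re]
  exact add_nonneg (hr.2 _ fun i => (fourier i x : ℂ).re) (hr.2 _ fun i => (fourier i x : ℂ).im)

theorem Gk_im {r : ℤ → ℝ} (hr : PDf r) (N : ℕ) (x : AddCircle (1 : ℝ)) :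
    (Gk r N x).im = 0 := by
  have h : (Gk r N x).im = ∑ i ∈ Finset.Ico (0 : ℤ) N, ∑ j ∈ Finset.Ico (0 : ℤ) N,
      ((fourier i x : ℂ).im * (fourier j x : ℂ).re - (fourier i x : ℂ).re *
        (fourier j x : ℂ).im) * r (i - j) := by
    unfold Gk
    rw [Complex.im_sum]
    refine Finset.sum_congr rfl fun i _ => ?_
    rw [Complex.im_sum]
    refine Finset.sum_congr rfl fun j _ => ?_
    rw [fourier_sub', Complex.im_ofReal_mul, Complex.mul_im, Complex.conj_re, Complex.conj_im]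
    ring
  have h2 : (Gk r N x).im = -(Gk r N x).im := by
    rw [h]
    conv_lhs => rw [Finset.sum_comm]
    rw [← Finset.sum_neg_distrib]
    refine Finset.sum_congr rfl fun i _ => ?_
    rw [← Finset.sum_neg_distrib]
    refine Finset.sum_congr rfl fun j _ => ?_
    have e : r (j - i) = r (i - j) := by
      rw [← hr.1 (i - j)]
      congr 1
      ring
    rw [e]
    ring
  linarith

theorem Gk_cont (r : ℤ → ℝ) (N : ℕ) : Continuous (Gk r N) := by
  unfold Gk
  exact continuous_finsetSum _ fun i _ => continuous_finsetSum _ fun j _ =>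
    continuous_const.mul (fourier (i - j)).continuous

/-- the density -/
noncomputable def rho (r : ℤ → ℝ) (N : ℕ) (x : AddCircle (1 : ℝ)) : ℝ := (Gk r N x).re / N

theorem rho_cont (r : ℤ → ℝ) (N : ℕ) : Continuous (rho r N) :=
  (Complex.continuous_re.comp (Gk_cont r N)).div_const _

theorem rho_nonneg {r : ℤ → ℝ} (hr : PDf r) (N : ℕ) (x : AddCircle (1 : ℝ)) : 0 ≤ rho r N x :=
  div_nonneg (Gk_re_nonneg hr N x) (Nat.cast_nonneg N)

theorem rho_coe {r : ℤ → ℝ} (hr : PDf r) (N : ℕ) (x : AddCircle (1 : ℝ)) :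
    ((rho r N x : ℝ) : ℂ) = Gk r N x / N := by
  unfold rho
  rw [Complex.ofReal_div, Complex.ofReal_natCast]
  congr 1
  refine Complex.ext (by simp) (by simp [Gk_im hr N x])

theorem int_cont {f : AddCircle (1 : ℝ) → ℂ} (hf : Continuous f) :
    Integrable f (haarAddCircle (T := (1 : ℝ))) :=
  hf.integrable_of_hasCompactSupport (HasCompactSupport.of_compactSpace f)

theorem int_fourier (m : ℤ) : ∫ x, (fourier m x : ℂ) ∂(haarAddCircle (T := (1 : ℝ))) =
    if m = 0 then 1 else 0 := by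
  split_ifs with h
  · subst h
    simp
  · exact integral_eq_zero_of_add_right_eq_neg (μ := haarAddCircle)
      (fourier_add_half_inv_index h one_pos)

/-- the number of pairs -/
noncomputable def cnt (N : ℕ) (n : ℤ) : ℕ :=
  ((Finset.Ico (0 : ℤ) N).filter fun i => i + n ∈ Finset.Ico (0 : ℤ) N).card

theorem int_Gk {r : ℤ → ℝ} (hr : PDf r) (N : ℕ) (n : ℤ) :
    ∫ x, Gk r N x * (fourier n x : ℂ) ∂(haarAddCircle (T := (1 : ℝ))) = (r n : ℂ) * cnt N n := by
  unfold Gk
  have e1 : ∀ x : AddCircle (1 : ℝ),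
      (∑ i ∈ Finset.Ico (0 : ℤ) N, ∑ j ∈ Finset.Ico (0 : ℤ) N,
        (r (i - j) : ℂ) * fourier (i - j) x) * (fourier n x : ℂ) =
      ∑ i ∈ Finset.Ico (0 : ℤ) N, ∑ j ∈ Finset.Ico (0 : ℤ) N,
        (r (i - j) : ℂ) * (fourier (i - j + n) x : ℂ) := by
    intro x
    rw [Finset.sum_mul]
    refine Finset.sum_congr rfl fun i _ => ?_
    rw [Finset.sum_mul]
    refine Finset.sum_congr rfl fun j _ => ?_
    rw [fourier_add, mul_assoc]
  simp_rw [e1]
  have hi : ∀ i j : ℤ, Integrable (fun x : AddCircle (1 : ℝ) =>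
      (r (i - j) : ℂ) * (fourier (i - j + n) x : ℂ)) (haarAddCircle (T := (1 : ℝ))) :=
    fun i j => int_cont (continuous_const.mul (fourier _).continuous)
  rw [integral_finsetSum _ fun i _ => integrable_finsetSum _ fun j _ => hi i j]
  have e2 : ∀ i ∈ Finset.Ico (0 : ℤ) N, ∫ x, ∑ j ∈ Finset.Ico (0 : ℤ) N,
      (r (i - j) : ℂ) * (fourier (i - j + n) x : ℂ) ∂(haarAddCircle (T := (1 : ℝ))) =
      if i + n ∈ Finset.Ico (0 : ℤ) N then (r n : ℂ) else 0 := by
    intro i _
    rw [integral_finsetSum _ fun j _ => hi i j]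
    have e3 : ∀ j ∈ Finset.Ico (0 : ℤ) N, ∫ x, (r (i - j) : ℂ) * (fourier (i - j + n) x : ℂ)
        ∂(haarAddCircle (T := (1 : ℝ))) = if i + n = j then (r n : ℂ) else 0 := by
      intro j _
      rw [integral_const_mul, int_fourier]
      by_cases h : i + n = j
      · rw [if_pos h, if_pos (by omega), mul_one]
        have : i - j = -n := by omega
        rw [this, hr.1]
      · rw [if_neg h, if_neg (by omega), mul_zero]
    rw [Finset.sum_congr rfl e3, Finset.sum_ite_eq]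
  rw [Finset.sum_congr rfl e2, ← Finset.sum_filter, Finset.sum_const, nsmul_eq_mul, mul_comm]
  rfl

theorem cnt_le (N : ℕ) (n : ℤ) : cnt N n ≤ N := by
  unfold cnt
  calc _ ≤ (Finset.Ico (0 : ℤ) N).card := Finset.card_filter_le _ _
    _ = N := by simp

theorem le_cnt (N : ℕ) (n : ℤ) : N ≤ cnt N n + 2 * n.natAbs := by
  unfold cnt
  have h1 := Finset.card_filter_add_card_filter_not (s := Finset.Ico (0 : ℤ) N)
    (fun i => i + n ∈ Finset.Ico (0 : ℤ) N)
  have h2 : ((Finset.Ico (0 : ℤ) N).filter fun i => ¬ (i + n ∈ Finset.Ico (0 : ℤ) N)) ⊆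
      Finset.Ico (0 : ℤ) n.natAbs ∪ Finset.Ico ((N : ℤ) - n.natAbs) N := by
    intro i hi
    rw [Finset.mem_filter, Finset.mem_Ico, Finset.mem_Ico] at hi
    rw [Finset.mem_union, Finset.mem_Ico, Finset.mem_Ico]
    omega
  have h3 := (Finset.card_le_card h2).trans (Finset.card_union_le _ _)
  rw [Int.card_Ico, Int.card_Ico] at h3
  have h4 : (Finset.Ico (0 : ℤ) N).card = N := by simp
  rw [h4] at h1
  omega

theorem cnt_lim (n : ℤ) : Tendsto (fun N : ℕ => (cnt N n : ℝ) / N) atTop (𝓝 1) := by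
  have h1 : Tendsto (fun N : ℕ => 1 - (2 * n.natAbs : ℝ) / N) atTop (𝓝 1) := by
    have := (tendsto_const_div_atTop_nhds_zero_nat (2 * n.natAbs : ℝ)).const_sub 1
    rwa [sub_zero] at this
  refine tendsto_of_tendsto_of_tendsto_of_le_of_le' h1 tendsto_const_nhds ?_ ?_
  · filter_upwards [eventually_gt_atTop 0] with N hN
    have hN' : (0 : ℝ) < N := by exact_mod_cast hN
    rw [sub_le_iff_le_add, ← add_div, le_div_iff₀ hN', one_mul]
    exact_mod_cast le_cnt N n
  · filter_upwards [eventually_gt_atTop 0] with N hN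
    have hN' : (0 : ℝ) < N := by exact_mod_cast hN
    rw [div_le_one hN']
    exact_mod_cast cnt_le N n

/-- the approximations -/
noncomputable def Pm (r : ℤ → ℝ) (N : ℕ) : Measure (AddCircle (1 : ℝ)) :=
  (haarAddCircle (T := (1 : ℝ))).withDensity fun x => ENNReal.ofReal (rho r N x)

theorem int_Pm {r : ℤ → ℝ} (hr : PDf r) (N : ℕ) (n : ℤ) :
    ∫ x, (fourier n x : ℂ) ∂(Pm r N) = (r n : ℂ) * (((cnt N n : ℝ) / N : ℝ) : ℂ) := by
  unfold Pm
  rw [integral_withDensity_eq_integral_toReal_smul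
    ((rho_cont r N).measurable.ennreal_ofReal) (Eventually.of_forall fun x =>
      ENNReal.ofReal_lt_top)]
  have e : ∀ x : AddCircle (1 : ℝ), (ENNReal.ofReal (rho r N x)).toReal • (fourier n x : ℂ) =
      (Gk r N x * (fourier n x : ℂ)) * (1 / (N : ℂ)) := by
    intro x
    rw [ENNReal.toReal_ofReal (rho_nonneg hr N x), Complex.real_smul, rho_coe hr]
    ring
  simp_rw [e]
  rw [integral_mul_const, int_Gk hr]
  push_cast
  ring

theorem int_rho {r : ℤ → ℝ} (hr : PDf r) (N : ℕ) :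
    ∫ x, rho r N x ∂(haarAddCircle (T := (1 : ℝ))) = r 0 * ((cnt N 0 : ℝ) / N) := by
  have h := int_Gk hr N 0
  have h2 : ((∫ x, rho r N x ∂(haarAddCircle (T := (1 : ℝ))) : ℝ) : ℂ) =
      ((r 0 * ((cnt N 0 : ℝ) / N) : ℝ) : ℂ) := by
    rw [← integral_complex_ofReal]
    have e : ∀ x : AddCircle (1 : ℝ), ((rho r N x : ℝ) : ℂ) =
        (Gk r N x * (fourier 0 x : ℂ)) * (1 / (N : ℂ)) := by
      intro x
      rw [rho_coe hr, fourier_zero]
      ring
    simp_rw [e]
    rw [integral_mul_const, h]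
    push_cast
    ring
  exact_mod_cast h2

theorem r0_nonneg {r : ℤ → ℝ} (hr : PDf r) : 0 ≤ r 0 := by
  have h := hr.2 {0} fun _ => 1
  simpa using h

theorem Pm_univ {r : ℤ → ℝ} (hr : PDf r) (N : ℕ) : Pm r N Set.univ ≤ ENNReal.ofReal (r 0) := by
  unfold Pm
  rw [withDensity_apply _ MeasurableSet.univ, Measure.restrict_univ,
    ← ofReal_integral_eq_lintegral_ofReal]
  · refine ENNReal.ofReal_le_ofReal ?_
    rw [int_rho hr]
    refine mul_le_of_le_one_right (r0_nonneg hr) ?_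
    refine div_le_one_of_le₀ ?_ (Nat.cast_nonneg N)
    exact_mod_cast cnt_le N 0
  · exact (rho_cont r N).integrable_of_hasCompactSupport (HasCompactSupport.of_compactSpace _)
  · exact Eventually.of_forall fun x => rho_nonneg hr N x

theorem Pm_fin {r : ℤ → ℝ} (hr : PDf r) (N : ℕ) : IsFiniteMeasure (Pm r N) :=
  ⟨(Pm_univ hr N).trans_lt ENNReal.ofReal_lt_top⟩

/-- the map to the interval -/
noncomputable def ph (x : AddCircle (1 : ℝ)) : Set.Ico (0 : ℝ) 1 :=
  ⟨(AddCircle.equivIco 1 0 x : ℝ), by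
    have h := (AddCircle.equivIco (1 : ℝ) 0 x).2
    exact ⟨h.1, by linarith [h.2]⟩⟩

theorem ph_meas : Measurable ph := by
  refine Measurable.subtype_mk ?_
  exact measurable_subtype_coe.comp (AddCircle.measurableEquivIco (1 : ℝ) 0).measurable

theorem ee_ph (x : AddCircle (1 : ℝ)) (n : ℤ) : ee ((ph x : ℝ) * n) = (fourier n x : ℂ) := by
  have h : ((ph x : ℝ) : AddCircle (1 : ℝ)) = x := AddCircle.coe_equivIco
  conv_rhs => rw [← h]
  rw [fourier_coe_apply]
  unfold ee
  congr 1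
  push_cast
  ring

/-- VHG -/
theorem pf_VHG : T_VHG := by
  intro r hr
  have hfin := Pm_fin hr
  set P : ℕ → FiniteMeasure (AddCircle (1 : ℝ)) := fun N => ⟨Pm r N, hfin N⟩ with hP
  have hK := isCompact_setOfPred_finiteMeasure_le_of_compactSpace (AddCircle (1 : ℝ))
    (Real.toNNReal (r 0))
  have hmem : ∀ N, (P N).mass ≤ Real.toNNReal (r 0) := by
    intro N
    have h := Pm_univ hr N
    have h2 : ((P N).mass : ENNReal) ≤ ((Real.toNNReal (r 0) : NNReal) : ENNReal) := by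
      rw [FiniteMeasure.ennreal_mass]
      exact h
    exact_mod_cast h2
  obtain ⟨σ, _, hσ⟩ := isCompact_iff_ultrafilter_le_nhds'.1 hK ((hyperfilter ℕ).map P)
    (Ultrafilter.mem_map.mpr (Filter.univ_mem' hmem))
  have hσ' : Tendsto P (hyperfilter ℕ : Filter ℕ) (𝓝 σ) := hσ
  refine ⟨(σ : Measure (AddCircle (1 : ℝ))).map ph, ?_, fun n => ?_⟩
  · exact Measure.isFiniteMeasure_map _ _
  · rw [integral_map ph_meas.aemeasurable]
    · simp_rw [ee_ph]
      have h1 := (FiniteMeasure.tendsto_iff_forall_integral_rclike_tendsto ℂ).1 hσ'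
        (BoundedContinuousFunction.mkOfCompact (fourier n))
      have h2 : Tendsto (fun N : ℕ => (r n : ℂ) * (((cnt N n : ℝ) / N : ℝ) : ℂ))
          (hyperfilter ℕ : Filter ℕ) (𝓝 (r n : ℂ)) := by
        have h3 : Tendsto (fun N : ℕ => (((cnt N n : ℝ) / N : ℝ) : ℂ)) atTop (𝓝 ((1 : ℝ) : ℂ)) :=
          (Complex.continuous_ofReal.tendsto _).comp (cnt_lim n)
        have h4 := (h3.mono_left Nat.hyperfilter_le_atTop).const_mul (r n : ℂ)
        simpa using h4
      refine tendsto_nhds_unique h1 ?_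
      refine h2.congr fun N => ?_
      rw [← int_Pm hr N n]
      rfl
    · refine Continuous.aestronglyMeasurable ?_
      unfold ee
      fun_prop

end Pool.Agent.H55.AG.HG
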