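import Pool.Agent.H24.AG.Targets

/-!
Row VPD of the board gap_modules (`MP_c59857_nt`): the square of a cube integral is positive
definite in every side.
-/

set_option autoImplicit false

open MeasureTheory Filter Finset

namespace Pool.Agent.H55.AG.PD

open Pool.Agent.H24.AG

section

variable {X : Type} [MeasurableSpace X]

theorem int_of_bdd {μ : Measure X} [IsFiniteMeasure μ]
    {f : X → ℝ} (hf : Measurable f) (h : ∀ x, |f x| ≤ 1) : Integrable f μ :=
  Integrable.of_bound hf.aestronglyMeasurable 1 (Filter.Eventually.of_forall fun x => by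
    rw [Real.norm_eq_abs]; exact h x)

theorem abs_int_le {μ : Measure X} [IsProbabilityMeasure μ] {f : X → ℝ} (h : ∀ x, |f x| ≤ 1) :
    |∫ x, f x ∂μ| ≤ 1 := by
  have h1 := norm_integral_le_of_norm_le_const (μ := μ) (C := 1) (f := f)
    (Filter.Eventually.of_forall fun x => by rw [Real.norm_eq_abs]; exact h x)
  rw [Real.norm_eq_abs, one_mul, probReal_univ] at h1
  exact h1

/-- the product over the subsets which do not contain `i` -/
noncomputable def Ph (T : X ≃ᵐ X) (j : ℕ) (g : Fin j → ℤ) (F : X → ℝ) (t : Fin j → ℤ) (i : Fin j)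
    (x : X) : ℝ :=
  ∏ ω ∈ (Finset.univ.erase i).powerset, F (zp T (∑ l ∈ ω, g l * t l) x)

theorem Ph_meas (T : X ≃ᵐ X) (j : ℕ) (g : Fin j → ℤ) (F : X → ℝ) (t : Fin j → ℤ) (i : Fin j)
    (hF : Measurable F) : Measurable (Ph T j g F t i) :=
  Finset.measurable_prod _ fun _ _ => hF.comp (measurable_zp T _)

theorem Ph_abs (T : X ≃ᵐ X) (j : ℕ) (g : Fin j → ℤ) (F : X → ℝ) (t : Fin j → ℤ) (i : Fin j)
    (hF : ∀ x, |F x| ≤ 1) (x : X) : |Ph T j g F t i x| ≤ 1 := by
  unfold Ph
  rw [Finset.abs_prod]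
  exact Finset.prod_le_one (fun _ _ => abs_nonneg _) fun _ _ => hF _

theorem prod_split (T : X ≃ᵐ X) (j : ℕ) (g : Fin j → ℤ) (F : X → ℝ) (t : Fin j → ℤ) (i : Fin j)
    (s : ℤ) (x : X) :
    ∏ ω : Finset (Fin j), F (zp T (∑ l ∈ ω, g l * Function.update t i s l) x) =
      Ph T j g F t i x * Ph T j g F t i (zp T (g i * s) x) := by
  have h0 : (Finset.univ : Finset (Finset (Fin j))) =
      (insert i (Finset.univ.erase i) : Finset (Fin j)).powerset := by
    rw [Finset.insert_erase (Finset.mem_univ i), Finset.powerset_univ]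
  rw [h0, Finset.prod_powerset_insert (Finset.notMem_erase i _)]
  unfold Ph
  have hs : ∀ ω ∈ (Finset.univ.erase i : Finset (Fin j)).powerset,
      ∑ l ∈ ω, g l * Function.update t i s l = ∑ l ∈ ω, g l * t l := by
    intro ω hω
    refine Finset.sum_congr rfl fun l hl => ?_
    have hli : l ≠ i := Finset.ne_of_mem_erase (Finset.mem_powerset.mp hω hl)
    rw [Function.update_of_ne hli]
  congr 1
  · refine Finset.prod_congr rfl fun ω hω => ?_
    rw [hs ω hω]
  · refine Finset.prod_congr rfl fun ω hω => ?_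
    have hi : i ∉ ω := fun h => Finset.notMem_erase i _ (Finset.mem_powerset.mp hω h)
    rw [Finset.sum_insert hi, hs ω hω, Function.update_self, add_comm, zp_add]

/-- correlations -/
theorem shift_int {μ : Measure X} {T : X ≃ᵐ X} (hT : MeasurePreserving T μ μ) (n : ℤ)
    {f : X → ℝ} (hf : Measurable f) : ∫ x, f (zp T n x) ∂μ = ∫ x, f x ∂μ := by
  have h := mp_zp hT n
  have h1 := integral_map (μ := μ) h.measurable.aemeasurable
    (f := f) (hf.aestronglyMeasurable)
  rw [h.map_eq] at h1
  exact h1.symm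

theorem pd_corr (μ : Measure X) [IsProbabilityMeasure μ] (T : X ≃ᵐ X)
    (hT : MeasurePreserving T μ μ) (b : ℤ) (P : X → ℝ) (hP : Measurable P)
    (hb : ∀ x, |P x| ≤ 1) : PDf fun s => (∫ x, P x * P (zp T (b * s) x) ∂μ) ^ 2 := by
  have hu : ∀ n : ℤ, Measurable fun x => P (zp T n x) := fun n => hP.comp (measurable_zp T n)
  have hdiff : ∀ p q : ℤ, ∫ x, P x * P (zp T (b * (p - q)) x) ∂μ =
      ∫ x, P (zp T (b * q) x) * P (zp T (b * p) x) ∂μ := by
    intro p q
    rw [← shift_int hT (b * q) (f := fun x => P x * P (zp T (b * (p - q)) x))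
      (hP.mul (hu _))]
    congr 1
    funext x
    rw [← zp_add]
    congr 3
    ring
  refine ⟨fun n => ?_, fun s c => ?_⟩
  · have h1 := hdiff 0 n
    have h2 := hdiff n 0
    rw [zero_sub, mul_zero] at h1
    rw [sub_zero, mul_zero] at h2
    change (∫ x, P x * P (zp T (b * (-n)) x) ∂μ) ^ 2 = (∫ x, P x * P (zp T (b * n) x) ∂μ) ^ 2
    rw [h1, h2]
    congr 2
    funext x
    ring
  · have hG : ∀ p : ℤ, Measurable fun z : X × X => P (zp T (b * p) z.1) * P (zp T (b * p) z.2) :=
      fun p => ((hu _).comp measurable_fst).mul ((hu _).comp measurable_snd)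
    have hGb : ∀ (p : ℤ) (z : X × X), |P (zp T (b * p) z.1) * P (zp T (b * p) z.2)| ≤ 1 := by
      intro p z
      rw [abs_mul]
      exact mul_le_one₀ (hb _) (abs_nonneg _) (hb _)
    have hsq : ∀ p q : ℤ, (∫ x, P x * P (zp T (b * (p - q)) x) ∂μ) ^ 2 =
        ∫ z : X × X, (P (zp T (b * p) z.1) * P (zp T (b * p) z.2)) *
          (P (zp T (b * q) z.1) * P (zp T (b * q) z.2)) ∂(μ.prod μ) := by
      intro p q
      rw [hdiff p q, sq, ← integral_prod_mul]
      congr 1
      funext z
      ring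
    have e : ∑ i ∈ s, ∑ j ∈ s, c i * c j * (∫ x, P x * P (zp T (b * (i - j)) x) ∂μ) ^ 2 =
        ∫ z : X × X, (∑ i ∈ s, c i * (P (zp T (b * i) z.1) * P (zp T (b * i) z.2))) ^ 2
          ∂(μ.prod μ) := by
      have e1 : ∀ z : X × X,
          (∑ i ∈ s, c i * (P (zp T (b * i) z.1) * P (zp T (b * i) z.2))) ^ 2 =
          ∑ i ∈ s, ∑ j ∈ s, (c i * c j) * ((P (zp T (b * i) z.1) * P (zp T (b * i) z.2)) *
          (P (zp T (b * j) z.1) * P (zp T (b * j) z.2))) := by
        intro z
        rw [sq, Finset.sum_mul_sum]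
        refine Finset.sum_congr rfl fun i _ => Finset.sum_congr rfl fun j _ => ?_
        ring
      have hint : ∀ i j : ℤ, Integrable (fun z : X × X =>
          (c i * c j) * ((P (zp T (b * i) z.1) * P (zp T (b * i) z.2)) *
          (P (zp T (b * j) z.1) * P (zp T (b * j) z.2)))) (μ.prod μ) := by
        intro i j
        refine Integrable.const_mul (int_of_bdd ((hG i).mul (hG j)) fun z => ?_) _
        rw [Pi.mul_apply, abs_mul]
        exact mul_le_one₀ (hGb i z) (abs_nonneg _) (hGb j z)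
      have e2 : (∫ z : X × X, (∑ i ∈ s, c i * (P (zp T (b * i) z.1) * P (zp T (b * i) z.2))) ^ 2
          ∂(μ.prod μ)) = ∫ z : X × X, ∑ i ∈ s, ∑ j ∈ s, (c i * c j) *
          ((P (zp T (b * i) z.1) * P (zp T (b * i) z.2)) *
          (P (zp T (b * j) z.1) * P (zp T (b * j) z.2))) ∂(μ.prod μ) :=
        integral_congr_ae (Filter.Eventually.of_forall e1)
      rw [e2, integral_finsetSum]
      · refine Finset.sum_congr rfl fun i _ => ?_
        rw [integral_finsetSum]
        · refine Finset.sum_congr rfl fun j _ => ?_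
          rw [integral_const_mul, ← hsq i j]
        · exact fun j _ => hint i j
      · exact fun i _ => integrable_finsetSum _ fun j _ => hint i j
    rw [e]
    exact integral_nonneg fun z => sq_nonneg _

end

/-- VPD -/
theorem pf_VPD (h : T_VVP) : T_VPD := by
  intro X _ μ _ T j g F hT hF hb
  refine ⟨fun t i => ?_, fun t => ?_⟩
  · have e : (fun s => (vv μ T j g F (Function.update t i s)) ^ 2) =
        fun s => (∫ x, Ph T j g F t i x * Ph T j g F t i (zp T (g i * s) x) ∂μ) ^ 2 := by
      funext s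
      rw [h X μ T j g F (Function.update t i s) hT]
      congr 2
      funext x
      exact prod_split T j g F t i s x
    rw [e]
    exact pd_corr μ T hT (g i) (Ph T j g F t i) (Ph_meas T j g F t i hF) (Ph_abs T j g F t i hb)
  · rw [h X μ T j g F t hT, sq_le_one_iff_abs_le_one]
    refine abs_int_le fun x => ?_
    rw [Finset.abs_prod]
    exact Finset.prod_le_one (fun _ _ => abs_nonneg _) fun _ _ => hb _

end Pool.Agent.H55.AG.PD
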