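import Pool.Agent.H38.AG.Targets

/-!
# Board allg_modules (MP_7ecdd4_nt), row RD2: the triples with an entry with a large smooth part
-/

set_option autoImplicit false

open Pool.Agent.H38.RB Pool.Agent.H38.PS Pool.Agent.H82.RD Pool.Agent.H38.AB Pool.Agent.H38.AG

namespace Pool.Agent.H55.AG

theorem pd_pos (G : Finset ℕ) (hG : ∀ p ∈ G, p.Prime) : 0 < pd G := by
  unfold pd
  exact Finset.prod_pos fun p hp => (hG p hp).pos

theorem sqf_pd {S : Finset ℕ} (hS : ∀ p ∈ S, p.Prime) : Squarefree (pd S) := by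
  unfold pd
  refine Finset.squarefree_prod_of_pairwise_isCoprime (fun a ha b hb hab => ?_)
    fun p hp => (hS p hp).squarefree
  exact Nat.coprime_iff_isRelPrime.1 ((Nat.coprime_primes (hS a ha) (hS b hb)).2 hab)

theorem pf_pd {S : Finset ℕ} (hS : ∀ p ∈ S, p.Prime) : (pd S).primeFactors = S := by
  unfold pd
  exact Nat.primeFactors_prod hS

/-- the radical of the product -/
theorem pd_pr {x : Fin 3 → ℤ} (hx : Adm x) :
    pd (pr x).primeFactors = pd (x 0).natAbs.primeFactors * pd (x 1).natAbs.primeFactors *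
      pd (x 2).natAbs.primeFactors := by
  have h : ∀ i j, i ≠ j → Nat.Coprime (x i).natAbs (x j).natAbs := fun i j hij =>
    Int.isCoprime_iff_gcd_eq_one.1 (hx.2.1 i j hij)
  have h1 : Nat.Coprime ((x 0).natAbs * (x 1).natAbs) (x 2).natAbs :=
    Nat.Coprime.mul_left (h 0 2 (by decide)) (h 1 2 (by decide))
  unfold pd pr
  rw [Int.natAbs_mul, Int.natAbs_mul, h1.primeFactors_mul, Finset.prod_union,
    (h 0 1 (by decide)).primeFactors_mul, Finset.prod_union]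
  · exact (h 0 1 (by decide)).disjoint_primeFactors
  · exact h1.disjoint_primeFactors

/-- Row RD2. -/
theorem pf_RD2 (hFIP : T_FIP) (hRKN : T_RKN) : T_RD2 := by
  classical
  intro K δ hK hδ
  have hK0 : 0 < K := by linarith
  obtain ⟨θ, hθd⟩ : ∃ θ : ℝ, θ = δ / (100 * K) := ⟨_, rfl⟩
  have hθ : 0 < θ := by rw [hθd]; positivity
  obtain ⟨C₁, hC₁, hF⟩ := hFIP θ hθ
  obtain ⟨C₂, hC₂, hR⟩ := hRKN K δ hK hδ
  refine ⟨θ, θ, 3 * (C₂ * C₁), hθ, hθ, by positivity, fun X hX => ?_⟩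
  have hX1 : 1 ≤ X := by linarith
  have hX0 : 0 < X := by linarith
  obtain ⟨Z, hZ⟩ : ∃ Z : ℝ, Z = X ^ (1 / 3 + 2 * θ) := ⟨_, rfl⟩
  have hZ0 : 0 ≤ Z := by rw [hZ]; positivity
  -- the possible radicals of the entry
  obtain ⟨F, hFd⟩ : ∃ F : Finset ℕ, F = (Finset.Icc 1 ⌊Z⌋₊).filter fun s => Squarefree s ∧
    X ^ δ ≤ (pd (s.primeFactors.filter fun p => (p : ℝ) ≤ Real.log X ^ K) : ℝ) := ⟨_, rfl⟩
  have hFc : (F.card : ℝ) ≤ C₂ * Z * X ^ (-(δ / (4 * K))) := by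
    rw [hFd]
    exact hR X Z hX hZ0
  obtain ⟨F', hF'd⟩ : ∃ F' : Finset ℕ, F' = F.filter fun s : ℕ => (s : ℝ) ≤ X ∧
    X ^ (1 / 3 - θ) ≤ (s : ℝ) := ⟨_, rfl⟩
  have hF'c : (F'.card : ℝ) ≤ F.card := by
    rw [hF'd]
    exact_mod_cast Finset.card_filter_le _ _
  have hF'1 : ∀ s ∈ F', 1 ≤ s ∧ (s : ℝ) ≤ X ∧ X ^ (1 / 3 - θ) ≤ (s : ℝ) := by
    intro s hs
    rw [hF'd, Finset.mem_filter, hFd, Finset.mem_filter, Finset.mem_Icc] at hs
    exact ⟨hs.1.1.1, hs.2⟩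
  obtain ⟨B, hB⟩ : ∃ B : Fin 3 → ℕ → Set (Fin 3 → ℤ), B = fun i s =>
    {x | Adm x ∧ pd (x i).natAbs.primeFactors = s ∧
      (pd (pr x).primeFactors : ℝ) ≤ s * (X / s)} := ⟨_, rfl⟩
  have hBf : ∀ i, ∀ s ∈ F', (B i s).Finite ∧
      ((B i s).ncard : ℝ) ≤ C₁ * X ^ θ * X ^ ((1 / 3 + θ / 2)) := by
    intro i s hs
    obtain ⟨h1, h2, h3⟩ := hF'1 s hs
    have hs0 : (0 : ℝ) < s := by exact_mod_cast h1
    have h4 : 1 ≤ X / s := by rwa [le_div_iff₀ hs0, one_mul]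
    obtain ⟨h5, h6⟩ := hF i s (X / s) h1 h4
    rw [hB]
    refine ⟨h5, h6.trans ?_⟩
    have h7 : (s : ℝ) * (X / s) = X := by field_simp
    rw [h7]
    refine mul_le_mul_of_nonneg_left ?_ (by positivity)
    have h8 : X / s ≤ X ^ (2 / 3 + θ) := by
      rw [div_le_iff₀ hs0]
      calc X = X ^ (2 / 3 + θ) * X ^ (1 / 3 - θ) := by
            rw [← Real.rpow_add hX0]
            have : 2 / 3 + θ + (1 / 3 - θ) = 1 := by ring
            rw [this, Real.rpow_one]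
        _ ≤ X ^ (2 / 3 + θ) * s := mul_le_mul_of_nonneg_left h3 (by positivity)
    calc (X / s) ^ (1 / 2 : ℝ) ≤ (X ^ (2 / 3 + θ)) ^ (1 / 2 : ℝ) :=
          Real.rpow_le_rpow (by positivity) h8 (by norm_num)
      _ = X ^ (1 / 3 + θ / 2) := by
          rw [← Real.rpow_mul hX0.le]
          congr 1
          ring
  obtain ⟨A, hA⟩ : ∃ A : Set (Fin 3 → ℤ), A = {x | Adm x ∧
    (pd (pr x).primeFactors : ℝ) ≤ X ∧
    (∀ i, X ^ (1 / 3 - θ) ≤ (pd (x i).natAbs.primeFactors : ℝ)) ∧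
    ∃ i, X ^ δ ≤ (pd ((x i).natAbs.primeFactors.filter
      fun p => (p : ℝ) ≤ Real.log X ^ K) : ℝ)} := ⟨_, rfl⟩
  rw [← hA]
  have hsub : A ⊆ ⋃ t ∈ (Finset.univ : Finset (Fin 3)) ×ˢ F', B t.1 t.2 := by
    intro x hx
    rw [hA] at hx
    obtain ⟨hx1, hx2, hx3, i, hx4⟩ := hx
    have hpr : ∀ j, ∀ p ∈ (x j).natAbs.primeFactors, p.Prime := fun j p hp =>
      Nat.prime_of_mem_primeFactors hp
    have hpos : ∀ j, (0 : ℝ) < (pd (x j).natAbs.primeFactors : ℝ) := fun j => by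
      exact_mod_cast pd_pos _ (hpr j)
    have hone : ∀ j, (1 : ℝ) ≤ (pd (x j).natAbs.primeFactors : ℝ) := fun j => by
      exact_mod_cast pd_pos _ (hpr j)
    rw [pd_pr hx1] at hx2
    push_cast at hx2
    have hu : 0 < X ^ (1 / 3 - θ) := by positivity
    -- upper bound of the radical of the entry
    have key : ∀ a b c : ℝ, X ^ (1 / 3 - θ) ≤ b → X ^ (1 / 3 - θ) ≤ c → 0 < a →
        a * b * c ≤ X → a ≤ Z := by
      intro a b c hb hc ha habc
      have h1 : a * (X ^ (1 / 3 - θ) * X ^ (1 / 3 - θ)) ≤ X := by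
        refine le_trans ?_ habc
        rw [mul_assoc]
        exact mul_le_mul_of_nonneg_left (mul_le_mul hb hc hu.le (hu.le.trans hb)) ha.le
      have h2 : X = Z * (X ^ (1 / 3 - θ) * X ^ (1 / 3 - θ)) := by
        rw [hZ, ← Real.rpow_add hX0, ← Real.rpow_add hX0]
        have : 1 / 3 + 2 * θ + (1 / 3 - θ + (1 / 3 - θ)) = 1 := by ring
        rw [this, Real.rpow_one]
      have h3 : a * (X ^ (1 / 3 - θ) * X ^ (1 / 3 - θ)) ≤
          Z * (X ^ (1 / 3 - θ) * X ^ (1 / 3 - θ)) := by rw [← h2]; exact h1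
      exact le_of_mul_le_mul_right h3 (by positivity)
    have hle : (pd (x i).natAbs.primeFactors : ℝ) ≤ Z ∧
        (pd (x i).natAbs.primeFactors : ℝ) ≤ X := by
      have h0 := hx3 0
      have h1 := hx3 1
      have h2 := hx3 2
      have p0 := hpos 0
      have p1 := hpos 1
      have p2 := hpos 2
      have o0 := hone 0
      have o1 := hone 1
      have o2 := hone 2
      obtain ⟨a, ha⟩ : ∃ a : ℝ, a = (pd (x 0).natAbs.primeFactors : ℝ) := ⟨_, rfl⟩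
      obtain ⟨b, hb⟩ : ∃ b : ℝ, b = (pd (x 1).natAbs.primeFactors : ℝ) := ⟨_, rfl⟩
      obtain ⟨c, hc⟩ : ∃ c : ℝ, c = (pd (x 2).natAbs.primeFactors : ℝ) := ⟨_, rfl⟩
      rw [← ha] at h0 p0 o0
      rw [← hb] at h1 p1 o1
      rw [← hc] at h2 p2 o2
      rw [← ha, ← hb, ← hc] at hx2
      have q : ∀ a b c : ℝ, 0 < a → 1 ≤ b → 1 ≤ c → a * b * c ≤ X → a ≤ X := by
        intro a b c ha hb hc habc
        have h3 : a ≤ a * b := le_mul_of_one_le_right ha.le hb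
        have h4 : a * b ≤ a * b * c := le_mul_of_one_le_right (by positivity) hc
        linarith
      fin_cases i
      · show (pd (x 0).natAbs.primeFactors : ℝ) ≤ Z ∧ (pd (x 0).natAbs.primeFactors : ℝ) ≤ X
        rw [← ha]
        exact ⟨key a b c h1 h2 p0 hx2, q a b c p0 o1 o2 hx2⟩
      · show (pd (x 1).natAbs.primeFactors : ℝ) ≤ Z ∧ (pd (x 1).natAbs.primeFactors : ℝ) ≤ X
        rw [← hb]
        have h3 : b * a * c ≤ X := by rw [mul_comm b a]; exact hx2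
        exact ⟨key b a c h0 h2 p1 h3, q b a c p1 o0 o2 h3⟩
      · show (pd (x 2).natAbs.primeFactors : ℝ) ≤ Z ∧ (pd (x 2).natAbs.primeFactors : ℝ) ≤ X
        rw [← hc]
        have h3 : c * a * b ≤ X := by
          have : c * a * b = a * b * c := by ring
          rw [this]
          exact hx2
        exact ⟨key c a b h0 h1 p2 h3, q c a b p2 o0 o1 h3⟩
    rw [Set.mem_iUnion₂]
    refine ⟨(i, pd (x i).natAbs.primeFactors), ?_, ?_⟩
    · rw [Finset.mem_product]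
      refine ⟨Finset.mem_univ _, ?_⟩
      show pd (x i).natAbs.primeFactors ∈ F'
      rw [hF'd, Finset.mem_filter, hFd, Finset.mem_filter, Finset.mem_Icc]
      refine ⟨⟨⟨pd_pos _ (hpr i), Nat.le_floor hle.1⟩, sqf_pd (hpr i), ?_⟩, hle.2, hx3 i⟩
      rw [pf_pd (hpr i)]
      exact hx4
    · show x ∈ B i (pd (x i).natAbs.primeFactors)
      rw [hB]
      refine ⟨hx1, rfl, ?_⟩
      have h1 : (pd (x i).natAbs.primeFactors : ℝ) * (X / (pd (x i).natAbs.primeFactors : ℝ)) =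
          X := by
        have := hpos i
        field_simp
      rw [h1, pd_pr hx1]
      push_cast
      exact hx2
  have hfin : (⋃ t ∈ (Finset.univ : Finset (Fin 3)) ×ˢ F', B t.1 t.2).Finite := by
    refine Set.Finite.biUnion (Finset.finite_toSet _) fun t ht => ?_
    exact (hBf t.1 t.2 (Finset.mem_product.1 ht).2).1
  refine ⟨hfin.subset hsub, ?_⟩
  have h1 : (A.ncard : ℝ) ≤ ∑ t ∈ (Finset.univ : Finset (Fin 3)) ×ˢ F', ((B t.1 t.2).ncard : ℝ) := by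
    have h2 := Set.ncard_le_ncard hsub hfin
    have h3 := Finset.set_ncard_biUnion_le ((Finset.univ : Finset (Fin 3)) ×ˢ F')
      (fun t => B t.1 t.2)
    exact_mod_cast h2.trans h3
  have h2 : ∑ t ∈ (Finset.univ : Finset (Fin 3)) ×ˢ F', ((B t.1 t.2).ncard : ℝ) ≤
      ∑ t ∈ (Finset.univ : Finset (Fin 3)) ×ˢ F', C₁ * X ^ θ * X ^ ((1 / 3 + θ / 2)) :=
    Finset.sum_le_sum fun t ht => (hBf t.1 t.2 (Finset.mem_product.1 ht).2).2
  refine h1.trans (h2.trans ?_)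
  rw [Finset.sum_const, nsmul_eq_mul, Finset.card_product, Finset.card_univ, Fintype.card_fin]
  push_cast
  have h3 : (F'.card : ℝ) ≤ C₂ * Z * X ^ (-(δ / (4 * K))) := hF'c.trans hFc
  have h4 : 3 * (F'.card : ℝ) * (C₁ * X ^ θ * X ^ (1 / 3 + θ / 2)) ≤
      3 * (C₂ * Z * X ^ (-(δ / (4 * K)))) * (C₁ * X ^ θ * X ^ (1 / 3 + θ / 2)) :=
    mul_le_mul_of_nonneg_right (mul_le_mul_of_nonneg_left h3 (by norm_num)) (by positivity)
  refine h4.trans ?_
  have h5 : 3 * (C₂ * Z * X ^ (-(δ / (4 * K)))) * (C₁ * X ^ θ * X ^ (1 / 3 + θ / 2)) =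
      3 * (C₂ * C₁) * (Z * X ^ (-(δ / (4 * K))) * X ^ θ * X ^ (1 / 3 + θ / 2)) := by ring
  rw [h5]
  refine mul_le_mul_of_nonneg_left ?_ (by positivity)
  rw [hZ, ← Real.rpow_add hX0, ← Real.rpow_add hX0, ← Real.rpow_add hX0]
  refine Real.rpow_le_rpow_of_exponent_le hX1 ?_
  have h6 : δ / (4 * K) = 25 * θ := by
    rw [hθd]
    field_simp
    norm_num
  rw [h6]
  linarith

end Pool.Agent.H55.AG
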